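import Mathlib
import Pool.Agent.R177.Pyr

/-!
# MP_1e46c9_co: the graphs of iterated pyramids are dimensionally ambiguous
-/

set_option autoImplicit false

namespace Pool.Agent.Results.MP_1e46c9_co.AlwaysAmbiguous

open Set Pool.Agent.R177 Pool.Agent.R177.Real Filter Topology

/-- `H` is isomorphic to the graph of a `d`-polytope: `p` maps the (finitely many) vertices of `H`
bijectively onto the vertices (extreme points) of a polytope in `ℝ^d` with nonempty interior, and
two vertices of `H` are adjacent exactly when they are distinct and the segment joining their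
images is a face (exposed subset) of the polytope. -/
def IsRealizable (d : ℕ) {U : Type} (H : SimpleGraph U) : Prop :=
  Finite U ∧ ∃ p : U → EuclideanSpace ℝ (Fin d), Function.Injective p ∧
    range p = (convexHull ℝ (range p)).extremePoints ℝ ∧
    (interior (convexHull ℝ (range p))).Nonempty ∧
    ∀ u v, H.Adj u v ↔ u ≠ v ∧ IsExposed ℝ (convexHull ℝ (range p)) (segment ℝ (p u) (p v))

theorem isRealizable_of_rz {U : Type} [Finite U] {E : Type} [NormedAddCommGroup E]
    [NormedSpace ℝ E] [FiniteDimensional ℝ E] {d : ℕ} (hd : Module.finrank ℝ E = d) {p : U → E}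
    {H : SimpleGraph U} (h : Rz p H) : IsRealizable d H := by
  have L : E ≃L[ℝ] EuclideanSpace ℝ (Fin d) :=
    ContinuousLinearEquiv.ofFinrankEq (by rw [hd, finrank_euclideanSpace_fin])
  exact ⟨inferInstance, _, (rz_iff _ H).1 (h.map L)⟩

theorem exists_z {U : Type} [Finite U] {E : Type} [NormedAddCommGroup E]
    [NormedSpace ℝ E] [FiniteDimensional ℝ E] (hd : 3 ≤ Module.finrank ℝ E) {p : U → E}
    {H : SimpleGraph U} (h : Rz p H) : ∃ z : E,
      (∀ u, ∃ (l : E →L[ℝ] ℝ) (b : ℝ), l (p u) + b = 0 ∧ (∀ w, w ≠ u → 0 < l (p w) + b) ∧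
        0 < l z + b) ∧
      (∀ u v, H.Adj u v → ∃ (l : E →L[ℝ] ℝ) (b : ℝ), l (p u) + b = 0 ∧ l (p v) + b = 0 ∧
        (∀ w, w ≠ u → w ≠ v → 0 < l (p w) + b) ∧ 0 < l z + b) ∧
      (∃ (l : E →L[ℝ] ℝ) (b : ℝ), l z + b = 0 ∧ ∀ w, 0 < l (p w) + b) := by
  cases nonempty_fintype U
  set P := convexHull ℝ (range p) with hP
  have hmem : ∀ w, p w ∈ P := fun w => subset_convexHull ℝ _ ⟨w, rfl⟩
  have hPc : IsCompact P := (Set.finite_range p).isCompact_convexHull (𝕜 := ℝ)
  have hvs : vectorSpan ℝ (range p) = ⊤ := by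
    rw [← direction_affineSpan, h.2.2, AffineSubspace.direction_top]
  -- any two vertices miss a third one
  have hthird : ∀ u v : U, ∃ w, w ≠ u ∧ w ≠ v := by
    intro u v
    by_contra hcon
    push Not at hcon
    have h1 : range p ⊆ {p u, p v} := by
      rintro _ ⟨w, rfl⟩
      by_cases hw : w = u
      · rw [hw]; simp
      · rw [hcon w hw]; simp
    have h2 : Module.finrank ℝ (vectorSpan ℝ (range p)) ≤ 1 := by
      refine (Submodule.finrank_mono (vectorSpan_mono ℝ h1)).trans ?_
      rw [vectorSpan_pair]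
      have h3 := finrank_span_finset_le_card (R := ℝ) ({p u -ᵥ p v} : Finset E)
      rw [Finset.coe_singleton, Finset.card_singleton] at h3
      exact h3
    rw [hvs, finrank_top] at h2
    omega
  have hne : Nonempty U := by
    by_contra hcon
    rw [not_nonempty_iff] at hcon
    have h1 : range p = ∅ := range_eq_empty p
    have h2 := h.2.2
    rw [h1, AffineSubspace.span_empty] at h2
    exact AffineSubspace.bot_ne_top ℝ E E h2
  obtain ⟨u0⟩ := hne
  have hcard : (0 : ℝ) < Fintype.card U := by
    have : 0 < Fintype.card U := Fintype.card_pos_iff.2 ⟨u0⟩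
    exact_mod_cast this
  -- the centroid
  set x0 : E := ∑ w : U, (1 / (Fintype.card U : ℝ)) • p w with hx0
  have hx0P : x0 ∈ P := by
    apply (convex_convexHull ℝ (range p)).sum_mem
    · intro i _; positivity
    · simp only [Finset.sum_const, Finset.card_univ, nsmul_eq_mul]
      field_simp
    · intro i _; exact hmem i
  have hval0 : ∀ (l : E →L[ℝ] ℝ) (b : ℝ) (u v : U), l (p u) + b = 0 → l (p v) + b = 0 →
      (∀ w, w ≠ u → w ≠ v → 0 < l (p w) + b) → 0 < l x0 + b := by
    intro l b u v h1 h2 h3
    have h4 : l x0 + b = ∑ w : U, (1 / (Fintype.card U : ℝ)) * (l (p w) + b) := by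
      rw [hx0, map_sum]
      simp only [map_smul, smul_eq_mul, mul_add]
      rw [Finset.sum_add_distrib]
      congr 1
      simp only [Finset.sum_const, Finset.card_univ, nsmul_eq_mul]
      field_simp
    rw [h4]
    obtain ⟨w, hw1, hw2⟩ := hthird u v
    have h5 : ∀ w, 0 ≤ l (p w) + b := by
      intro w
      by_cases hwu : w = u
      · rw [hwu, h1]
      by_cases hwv : w = v
      · rw [hwv, h2]
      · exact (h3 w hwu hwv).le
    apply Finset.sum_pos'
    · intro w _
      have := h5 w
      positivity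
    · refine ⟨w, Finset.mem_univ _, ?_⟩
      have := h3 w hw1 hw2
      positivity
  -- a direction outside finitely many planes
  have hy : ∃ y : E, ∀ u v : U, y ∉ Submodule.span ℝ {p u - x0, p v - x0} := by
    by_contra hcon
    push Not at hcon
    obtain ⟨⟨u, v⟩, huv⟩ := Subspace.exists_eq_top_of_iUnion_eq_univ (k := ℝ) (E := E)
      (p := fun e : U × U => Submodule.span ℝ {p e.1 - x0, p e.2 - x0}) (by
        rw [eq_univ_iff_forall]
        intro y
        obtain ⟨u, v, huv⟩ := hcon y
        exact mem_iUnion.2 ⟨(u, v), huv⟩)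
    simp only at huv
    have h1 : Module.finrank ℝ (Submodule.span ℝ {p u - x0, p v - x0}) ≤ 2 := by
      classical
      have h2 := finrank_span_finset_le_card (R := ℝ) ({p u - x0, p v - x0} : Finset E)
      rw [Finset.coe_insert, Finset.coe_singleton] at h2
      exact h2.trans Finset.card_le_two
    rw [huv, finrank_top] at h1
    omega
  obtain ⟨y, hy⟩ := hy
  have hy0 : y ≠ 0 := by
    rintro rfl
    exact hy u0 u0 (Submodule.zero_mem _)
  -- the last point of the ray in `P`
  obtain ⟨R, hR⟩ := hPc.isBounded.exists_norm_le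
  set T : Set ℝ := {t | 0 ≤ t ∧ x0 + t • y ∈ P} with hT
  have hTc : IsCompact T := by
    have h1 : T = Icc 0 (2 * R / ‖y‖) ∩ (fun t : ℝ => x0 + t • y) ⁻¹' P := by
      ext t
      constructor
      · rintro ⟨h2, h3⟩
        refine ⟨⟨h2, ?_⟩, h3⟩
        have h4 := hR _ h3
        have h5 := hR _ hx0P
        have h6 : ‖t • y‖ ≤ 2 * R := by
          have : t • y = (x0 + t • y) - x0 := by abel
          rw [this]
          refine (norm_sub_le _ _).trans ?_
          linarith
        rw [norm_smul, Real.norm_eq_abs, abs_of_nonneg h2] at h6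
        rw [le_div_iff₀ (norm_pos_iff.2 hy0)]
        exact h6
      · rintro ⟨h2, h3⟩
        exact ⟨h2.1, h3⟩
    rw [h1]
    exact isCompact_Icc.inter_right (hPc.isClosed.preimage (by fun_prop))
  have hT0 : T.Nonempty := ⟨0, le_rfl, by simpa using hx0P⟩
  obtain ⟨t, ht⟩ := hTc.exists_isGreatest hT0
  have hq : ∀ (l : E →L[ℝ] ℝ) (b : ℝ) (u v : U), l (p u) + b = 0 → l (p v) + b = 0 →
      (∀ w, w ≠ u → w ≠ v → 0 < l (p w) + b) → 0 < l (x0 + t • y) + b := by
    intro l b u v h1 h2 h3
    have h4 := hull_nonneg p {u, v} l b (by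
      rintro w (rfl | rfl)
      · exact h1
      · exact h2) (by
      intro w hw
      exact h3 w (fun h' => hw (by simp [h'])) (fun h' => hw (by simp [h']))) (x0 + t • y) ht.1.2
    rcases h4.1.lt_or_eq with h5 | h5
    · exact h5
    · exfalso
      have h6 := h4.2 h5.symm
      rw [image_pair, convexHull_pair] at h6
      obtain ⟨α, β, hα, hβ, hαβ, h7⟩ := h6
      have h8 : t • y = α • (p u - x0) + β • (p v - x0) := by
        have : x0 = (α + β) • x0 := by rw [hαβ, one_smul]
        have h9 : t • y = α • p u + β • p v - x0 := by rw [h7]; abel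
        rw [h9]
        nth_rewrite 1 [this]
        rw [smul_sub, smul_sub, add_smul]
        abel
      have h9 : t • y ∈ Submodule.span ℝ {p u - x0, p v - x0} := by
        rw [h8]
        exact Submodule.add_mem _
          (Submodule.smul_mem _ _ (Submodule.subset_span (by simp)))
          (Submodule.smul_mem _ _ (Submodule.subset_span (by simp)))
      by_cases ht0 : t = 0
      · have h10 := hval0 l b u v h1 h2 h3
        rw [ht0, zero_smul, add_zero] at h5
        linarith
      · apply hy u v
        have := Submodule.smul_mem (Submodule.span ℝ {p u - x0, p v - x0}) t⁻¹ h9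
        rwa [smul_smul, inv_mul_cancel₀ ht0, one_smul] at this
  choose lv bv hv1 hv2 using h.1
  have he : ∀ e : {e : U × U // H.Adj e.1 e.2}, ∃ (l : E →L[ℝ] ℝ) (b : ℝ),
      l (p e.1.1) + b = 0 ∧ l (p e.1.2) + b = 0 ∧
      ∀ w, w ≠ e.1.1 → w ≠ e.1.2 → 0 < l (p w) + b :=
    fun e => (h.2.1 e.1.1 e.1.2 e.2.ne).1 e.2
  choose le be he1 he2 he3 using he
  have hev1 : ∀ᶠ s in 𝓝[>] t, ∀ u, 0 < lv u (x0 + s • y) + bv u := by
    rw [Filter.eventually_all]
    intro u
    have hc : Continuous fun s : ℝ => lv u (x0 + s • y) + bv u := by fun_prop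
    have h1 : 0 < lv u (x0 + t • y) + bv u :=
      hq (lv u) (bv u) u u (hv1 u) (hv1 u) (fun w hw _ => hv2 u w hw)
    exact nhdsWithin_le_nhds (hc.continuousAt.eventually (lt_mem_nhds h1))
  have hev2 : ∀ᶠ s in 𝓝[>] t, ∀ e, 0 < le e (x0 + s • y) + be e := by
    rw [Filter.eventually_all]
    intro e
    have hc : Continuous fun s : ℝ => le e (x0 + s • y) + be e := by fun_prop
    have h1 : 0 < le e (x0 + t • y) + be e :=
      hq (le e) (be e) e.1.1 e.1.2 (he1 e) (he2 e) (he3 e)
    exact nhdsWithin_le_nhds (hc.continuousAt.eventually (lt_mem_nhds h1))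
  obtain ⟨s, ⟨hs1, hs2⟩, hs3⟩ := ((hev1.and hev2).and self_mem_nhdsWithin).exists
  have hzP : x0 + s • y ∉ P := by
    intro hcon
    have h1 : s ∈ T := ⟨ht.1.1.trans (le_of_lt hs3), hcon⟩
    have h2 := ht.2 h1
    exact absurd hs3 (not_lt.2 h2)
  refine ⟨x0 + s • y, fun u => ⟨lv u, bv u, hv1 u, hv2 u, hs1 u⟩, fun u v huv => ?_, ?_⟩
  · exact ⟨le ⟨(u, v), huv⟩, be ⟨(u, v), huv⟩, he1 ⟨(u, v), huv⟩, he2 ⟨(u, v), huv⟩,
      he3 ⟨(u, v), huv⟩, hs2 ⟨(u, v), huv⟩⟩
  · obtain ⟨f, r, h1, h2⟩ := geometric_hahn_banach_point_closed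
      (convex_convexHull ℝ (range p)) hPc.isClosed hzP
    refine ⟨f, -f (x0 + s • y), by ring, fun w => ?_⟩
    have := h2 (p w) (hmem w)
    linarith

theorem realizable_zero {n : ℕ} {U : Type} {H : SimpleGraph U} (h : IsRealizable n H) :
    IsRealizable n (joinComplete H 0) := by
  obtain ⟨hfin, p, hp⟩ := h
  have h1 : Rz p H := (rz_iff p H).2 hp
  have h2 := h1.comp (W := U ⊕ Fin 0) (Sum.elim id (fun i => i.elim0)) (by
    constructor
    · rintro (u | i) (v | j) h
      · exact congrArg Sum.inl h
      · exact j.elim0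
      · exact i.elim0
      · exact i.elim0
    · intro u
      exact ⟨Sum.inl u, rfl⟩)
  have h3 : H.comap (Sum.elim id (fun i : Fin 0 => i.elim0)) = joinComplete H 0 := by
    ext x y
    rcases x with u | i
    · rcases y with v | j
      · rw [jc_inl]; rfl
      · exact j.elim0
    · exact i.elim0
  rw [h3] at h2
  exact isRealizable_of_rz (finrank_euclideanSpace_fin) h2

theorem realizable_succ {m k : ℕ} {U : Type} {H : SimpleGraph U}
    (h : IsRealizable m (joinComplete H k)) : IsRealizable (m + 1) (joinComplete H (k + 1)) := by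
  obtain ⟨hfin, p, hp⟩ := h
  have hU : Finite U := Finite.of_injective (Sum.inl : U → U ⊕ Fin k) Sum.inl_injective
  have h1 : Rz p (joinComplete H k) := (rz_iff p _).2 hp
  have h2 := h1.pyr
  let f : U ⊕ Fin (k + 1) → Option (U ⊕ Fin k) :=
    Sum.elim (fun u => some (Sum.inl u)) (fun i => (finSuccEquivLast i).map Sum.inr)
  have hf : Function.Bijective f := by
    constructor
    · rintro (u | i) (v | j) h
      · simp only [f, Sum.elim_inl, Option.some.injEq, Sum.inl.injEq] at h
        rw [h]
      · simp only [f, Sum.elim_inl, Sum.elim_inr] at h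
        cases h3 : finSuccEquivLast j <;> rw [h3] at h <;> simp at h
      · simp only [f, Sum.elim_inl, Sum.elim_inr] at h
        cases h3 : finSuccEquivLast i <;> rw [h3] at h <;> simp at h
      · simp only [f, Sum.elim_inr] at h
        have := Option.map_injective Sum.inr_injective h
        rw [finSuccEquivLast.injective this]
    · rintro (_ | (u | i))
      · exact ⟨Sum.inr (Fin.last k), by simp [f]⟩
      · exact ⟨Sum.inl u, rfl⟩
      · exact ⟨Sum.inr i.castSucc, by simp [f]⟩
  have h3 := h2.comp f hf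
  have h4 : (cone (joinComplete H k)).comap f = joinComplete H (k + 1) := by
    ext x y
    rw [SimpleGraph.comap_adj]
    constructor
    · rintro ⟨h5, h6⟩
      refine ⟨fun h => h5 (by rw [h]), ?_⟩
      rintro u v rfl rfl
      exact (jc_inl H k u v).1 (h6 (Sum.inl u) (Sum.inl v) rfl rfl)
    · rintro ⟨h5, h6⟩
      refine ⟨fun h => h5 (hf.1 h), ?_⟩
      rintro a b ha hb
      refine ⟨?_, ?_⟩
      · rintro rfl
        exact h5 (hf.1 (ha.trans hb.symm))
      · rintro u v rfl rfl
        apply h6
        · exact hf.1 ha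
        · exact hf.1 hb
  rw [h4] at h3
  refine isRealizable_of_rz ?_ h3
  rw [Module.finrank_prod, finrank_euclideanSpace_fin, Module.finrank_self]

theorem realizable_two {n : ℕ} (hn : 3 ≤ n) {U : Type} {H : SimpleGraph U}
    (h : IsRealizable n H) : IsRealizable (n + 1) (joinComplete H 2) := by
  obtain ⟨hfin, p, hp⟩ := h
  have h1 : Rz p H := (rz_iff p H).2 hp
  obtain ⟨z, hz1, hz2, hz3⟩ := exists_z (by rw [finrank_euclideanSpace_fin]; exact hn) h1
  have h2 := h1.two z hz1 hz2 hz3
  refine isRealizable_of_rz ?_ h2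
  rw [Module.finrank_prod, finrank_euclideanSpace_fin, Module.finrank_self]

/-- **The graphs of iterated pyramids over polytopes of dimension at least three are dimensionally
ambiguous.** Let `3 ≤ n`, `n + 2 ≤ d` and let `H` be the graph of any `n`-polytope. The graph
obtained from `H` by adding `d - n` vertices adjacent to each other and to all the vertices of `H`
(the graph of the `(d - n)`-fold pyramid over the polytope) is the graph of a `d`-polytope and the
graph of a `(d - 1)`-polytope. -/
theorem result (n d : ℕ) (hn : 3 ≤ n) (hd : n + 2 ≤ d) {U : Type} (H : SimpleGraph U)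
    (hH : IsRealizable n H) :
    IsRealizable d (joinComplete H (d - n)) ∧ IsRealizable (d - 1) (joinComplete H (d - n)) := by
  have h1 : ∀ k, IsRealizable (n + k) (joinComplete H k) := by
    intro k
    induction k with
    | zero => exact realizable_zero hH
    | succ k ih => exact realizable_succ ih
  have h2 : ∀ k, IsRealizable (n + 1 + k) (joinComplete H (2 + k)) := by
    intro k
    induction k with
    | zero => exact realizable_two hn hH
    | succ k ih => exact realizable_succ ih
  refine ⟨?_, ?_⟩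
  · have := h1 (d - n)
    rwa [Nat.add_sub_of_le (by omega)] at this
  · have := h2 (d - n - 2)
    have h3 : n + 1 + (d - n - 2) = d - 1 := by omega
    have h4 : 2 + (d - n - 2) = d - n := by omega
    rwa [h3, h4] at this

end Pool.Agent.Results.MP_1e46c9_co.AlwaysAmbiguous
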