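import Pool.Agent.R656.PolyTetra

/-!
# `MP_1e46c9_co`: graphs of iterated pyramids are dimensionally ambiguous

For every `n ≥ 3`, every `n`-polytope `P` and every `d ≥ n + 2`, the graph of the `(d - n)`-fold
pyramid over `P` (the graph of `P` with `d - n` apexes added) is also the graph of a
`(d - 1)`-polytope.
-/

set_option autoImplicit false

namespace Pool.Agent.Results.MP_1e46c9_co.PyramidsAmbiguous

open Set Pool.Agent.R656.PG

variable {n : ℕ}

lemma realize {ι : Type*} {G : SimpleGraph ι} {P : Set (EuclideanSpace ℝ (Fin n))}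
    (hP : IsPolytope n P) (e : G ≃g polyGraph P) :
    Rz (fun i => (e i : EuclideanSpace ℝ (Fin n))) G ∧
      affineSpan ℝ (range fun i => (e i : EuclideanSpace ℝ (Fin n))) = ⊤ ∧
      convexHull ℝ (range fun i => (e i : EuclideanSpace ℝ (Fin n))) = P := by
  have h1 : (range fun i => (e i : EuclideanSpace ℝ (Fin n))) = Verts P := by
    ext x
    constructor
    · rintro ⟨i, rfl⟩
      exact (e i).2
    · intro hx
      exact ⟨e.symm ⟨x, hx⟩, by simp⟩
  refine ⟨hP.rz.reindex e, ?_, ?_⟩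
  · rw [h1, hP.span]
  · rw [h1, hP.conv]

/-- For `n ≤ 4`, the `n`-simplex is admissible. -/
theorem admissible_simplex (hn : n ≤ 4) {p : Fin (n + 1) → EuclideanSpace ℝ (Fin n)}
    (hp : AffineIndependent ℝ p) (hp' : affineSpan ℝ (range p) = ⊤) :
    Admissible n (convexHull ℝ (range p)) := by
  classical
  have hrz := rz_simplex hp hp'
  set P := convexHull ℝ (range p) with hPdef
  let e0 : (⊤ : SimpleGraph (Fin (n + 1))) ≃g polyGraph P := hrz.iso
  have hPoly : IsPolytope n P := ⟨range p, finite_range p, hp', rfl⟩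
  have hcard : Fintype.card (Fin (n + 1)) ≤ 5 := by
    rw [Fintype.card_fin]
    omega
  refine ⟨hPoly, ?_, ?_, ?_, ?_⟩
  · rintro ⟨d, d', hdd', hd, hd'⟩
    have key : ∀ d, Realizable (polyGraph P) d → d = n := by
      intro d hd
      obtain ⟨q, hq, hq'⟩ := hd.r.iso e0
      have h1 := affineIndependent_of_complete hq hcard
      have h2 := card_of_indep h1 hq'
      rw [Fintype.card_fin] at h2
      omega
    exact hdd' ((key d hd).trans (key d' hd').symm)
  · rintro ⟨P', Q', hP', hQ', ⟨e1⟩, ⟨e2⟩, hne⟩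
    obtain ⟨h1, h2, h3⟩ := realize hP' (e0.trans e1)
    obtain ⟨h4, h5, h6⟩ := realize hQ' (e0.trans e2)
    obtain ⟨Φ, -⟩ := exists_facesIso (affineIndependent_of_complete h1 hcard) h2
      (affineIndependent_of_complete h4 hcard) h5 h3 h6
    exact hne.elim Φ
  · rintro ⟨P', hP', φ, ψ, hne⟩
    obtain ⟨h1, h2, h3⟩ := realize hP' (e0.trans ψ)
    obtain ⟨h4, h5, h6⟩ := realize hP' (e0.trans φ)
    obtain ⟨Φ, hΦ⟩ := exists_facesIso (affineIndependent_of_complete h1 hcard) h2
      (affineIndependent_of_complete h4 hcard) h5 h3 h6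
    refine hne ⟨Φ, fun x => ?_⟩
    apply Subtype.ext
    obtain ⟨i, rfl⟩ := (e0.trans ψ).surjective x
    have h7 := hΦ i ((e0.trans ψ) i).2
    have h8 : (ψ.symm.trans φ) ((e0.trans ψ) i) = (e0.trans φ) i := by
      show φ (ψ.symm (ψ (e0 i))) = φ (e0 i)
      rw [RelIso.symm_apply_apply]
    refine h7.trans ?_
    show ({((e0.trans φ) i : EuclideanSpace ℝ (Fin n))} : Set (EuclideanSpace ℝ (Fin n))) =
      {((ψ.symm.trans φ) ((e0.trans ψ) i) : EuclideanSpace ℝ (Fin n))}
    rw [h8]
  · intro H hH hreal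
    obtain ⟨q, hq, hq'⟩ := hreal.r
    have : Finite (Verts P) := hPoly.verts_finite
    have : Fintype (Verts P) := Fintype.ofFinite _
    have : Fintype H.verts := Fintype.ofFinite _
    have h1 := card_ge hq'
    have h2 : Fintype.card (Verts P) = n + 1 := by
      rw [← Fintype.card_congr e0.toEquiv, Fintype.card_fin]
    have h3 : Fintype.card H.verts ≤ Fintype.card (Verts P) := Fintype.card_subtype_le _
    have h4 : Fintype.card H.verts = n + 1 := by omega
    have h5 : H.verts = univ := by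
      rw [← Set.toFinset_inj, Set.toFinset_univ]
      apply Finset.eq_univ_of_card
      rw [Set.toFinset_card, h4, h2]
    have h6 := indep_of_card hq' h4
    apply hH
    apply SimpleGraph.Subgraph.ext
    · rw [h5, SimpleGraph.Subgraph.verts_top]
    · ext x y
      rw [SimpleGraph.Subgraph.top_adj]
      constructor
      · exact fun h => h.adj_sub
      · intro h
        have hx : x ∈ H.verts := by rw [h5]; trivial
        have hy : y ∈ H.verts := by rw [h5]; trivial
        have hxy : (⟨x, hx⟩ : H.verts) ≠ ⟨y, hy⟩ := fun e => h.ne (congrArg Subtype.val e)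
        have h7 : H.coe.Adj ⟨x, hx⟩ ⟨y, hy⟩ :=
          (hq.2 ⟨x, hx⟩ ⟨y, hy⟩ hxy).2 (exists_edge h6 hq' hxy)
        exact h7

theorem exists_admissible (hn : n ≤ 4) :
    ∃ P : Set (EuclideanSpace ℝ (Fin n)), Admissible n P := by
  obtain ⟨b⟩ := AffineBasis.exists_affineBasis_of_finiteDimensional
    (k := ℝ) (P := EuclideanSpace ℝ (Fin n)) (ι := Fin (n + 1)) (by simp)
  exact ⟨_, admissible_simplex hn b.ind b.tot⟩

theorem result :
    (∀ n : ℕ, 3 ≤ n → ∀ P : Set (EuclideanSpace ℝ (Fin n)), IsPolytope n P → ∀ d : ℕ, n + 2 ≤ d →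
      Realizable (joinK (polyGraph P) (d - n)) d ∧
        Realizable (joinK (polyGraph P) (d - n)) (d - 1)) ∧
    (∃ P : Set (EuclideanSpace ℝ (Fin 3)), Admissible 3 P) ∧
    (∃ P : Set (EuclideanSpace ℝ (Fin 4)), Admissible 4 P) ∧
    (∃ n d : ℕ, 3 ≤ n ∧ 5 ≤ d ∧ n < d ∧ ∃ P : Set (EuclideanSpace ℝ (Fin n)), Admissible n P ∧
      ∃ d' : ℕ, d' ≠ d ∧ Realizable (joinK (polyGraph P) (d - n)) d') := by
  refine ⟨fun n hn P hP d hd => main hn hP hd, exists_admissible (by norm_num),
    exists_admissible (by norm_num), ?_⟩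
  obtain ⟨P, hP⟩ := exists_admissible (n := 3) (by norm_num)
  exact ⟨3, 5, le_rfl, le_rfl, by norm_num, P, hP, 5 - 1, by norm_num,
    (main le_rfl hP.1 (d := 5) (by norm_num)).2⟩

end Pool.Agent.Results.MP_1e46c9_co.PyramidsAmbiguous
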